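import Mathlib
import Pool.Agent.TH861.GL3.Main

/-! Local defect of nontempered unitary parameters of `GL(3)`, and the Dirichlet series inequality. -/

set_option autoImplicit false

open NumberField IsDedekindDomain Filter Topology
open Pool.Agent.W189
open Pool.Agent.W189.TP (DS DS_real prod_norm)
open Pool.Agent.TH861.GL3

namespace Pool.Agent.Y816.GL3T

theorem univ3 : ∀ i j k : Fin 3, i ≠ j → k ≠ i → k ≠ j → (Finset.univ : Finset (Fin 3)) = {i, j, k} := by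
  decide

theorem third : ∀ i j : Fin 3, i ≠ j → ∃ k, k ≠ i ∧ k ≠ j := by decide

theorem sum3 {M : Type*} [AddCommMonoid M] (f : Fin 3 → M) {i j k : Fin 3} (hij : i ≠ j) (hki : k ≠ i)
    (hkj : k ≠ j) : ∑ l, f l = f i + (f j + f k) := by
  rw [univ3 i j k hij hki hkj, Finset.sum_insert (by simp [hij, hki.symm]), Finset.sum_insert (by simp [hkj.symm]),
    Finset.sum_singleton]

theorem prod3 (f : Fin 3 → ℝ) {i j k : Fin 3} (hij : i ≠ j) (hki : k ≠ i)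
    (hkj : k ≠ j) : ∏ l, f l = f i * (f j * f k) := by
  rw [univ3 i j k hij hki hkj, Finset.prod_insert (by simp [hij, hki.symm]), Finset.prod_insert (by simp [hkj.symm]),
    Finset.prod_singleton]

/-- nontempered unitary parameters of `GL(3)` -/
theorem local_shape {a : Fin 3 → ℂ} (hU : RS.Unitary a) (h : ¬ ∀ i, ‖a i‖ = 1) : ∃ r : ℝ, 1 < r ∧
    ∑ i, (‖a i‖ - 1) ^ 2 = (r - 1) ^ 2 + (r⁻¹ - 1) ^ 2 ∧ (r + r⁻¹ - 1) ^ 2 ≤ ‖∑ i, a i‖ ^ 2 ∧ ∀ i, ‖a i‖ ≤ r := by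
  have h' := h
  push Not at h
  obtain ⟨i₀, hi₀⟩ := h
  have h1 : ((starRingEnd ℂ) (a i₀))⁻¹ ∈ Multiset.map a Finset.univ.val := by
    rw [← hU.2]
    exact Multiset.mem_map.2 ⟨i₀, Finset.mem_univ_val _, rfl⟩
  obtain ⟨j₀, _, hj₀⟩ := Multiset.mem_map.1 h1
  have hpos : ∀ i, 0 < ‖a i‖ := fun i => norm_pos_iff.2 (hU.1 i)
  obtain ⟨i, j, hi, hj⟩ : ∃ i j : Fin 3, 1 < ‖a i‖ ∧ a j = ((starRingEnd ℂ) (a i))⁻¹ := by
    rcases lt_or_gt_of_ne hi₀ with h3 | h3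
    · refine ⟨j₀, i₀, ?_, ?_⟩
      · rw [hj₀, norm_inv, RCLike.norm_conj]
        exact (one_lt_inv₀ (hpos i₀)).2 h3
      · rw [hj₀, map_inv₀, inv_inv, Complex.conj_conj]
    · exact ⟨i₀, j₀, h3, hj₀⟩
  have hjn : ‖a j‖ = ‖a i‖⁻¹ := by rw [hj, norm_inv, RCLike.norm_conj]
  have hij : i ≠ j := by
    rintro rfl
    have h4 : ‖a i‖⁻¹ < 1 := inv_lt_one_of_one_lt₀ hi
    rw [← hjn] at h4
    linarith
  obtain ⟨k, hki, hkj⟩ := third i j hij
  have hp := prod_norm hU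
  rw [prod3 (fun l => ‖a l‖) hij hki hkj, hjn] at hp
  set r : ℝ := ‖a i‖ with hr
  have hr0 : 0 < r := by linarith
  have hkn : ‖a k‖ = 1 := by
    field_simp at hp
    exact hp
  refine ⟨r, hi, ?_, ?_, ?_⟩
  · rw [sum3 (fun l => (‖a l‖ - 1) ^ 2) hij hki hkj, hjn, hkn, ← hr]
    ring
  · have hrc : (r : ℂ) ≠ 0 := by exact_mod_cast hr0.ne'
    have hai0 : a i ≠ 0 := hU.1 i
    have hai : (starRingEnd ℂ) (a i) ≠ 0 := by
      rw [Ne, map_eq_zero]
      exact hU.1 i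
    have e1 : a i + a j = ((1 + (r⁻¹) ^ 2 : ℝ) : ℂ) * a i := by
      rw [hj]
      have h5 : (starRingEnd ℂ) (a i) * a i = ((r ^ 2 : ℝ) : ℂ) := by
        rw [mul_comm, Complex.mul_conj, Complex.normSq_eq_norm_sq, ← hr]
      have h6 : ((starRingEnd ℂ) (a i))⁻¹ = ((r ^ 2 : ℝ) : ℂ)⁻¹ * a i := by
        rw [← h5]
        field_simp
      rw [h6]
      push_cast
      field_simp
    have e2 : ‖a i + a j‖ = r + r⁻¹ := by
      rw [e1, norm_mul, Complex.norm_real, Real.norm_of_nonneg (by positivity), ← hr]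
      field_simp
    have e3 : ∑ l, a l = (a i + a j) + a k := by
      rw [sum3 a hij hki hkj]
      ring
    have e4 : r + r⁻¹ - 1 ≤ ‖∑ l, a l‖ := by
      rw [e3]
      have := norm_sub_norm_le (a i + a j) (-(a k))
      rw [sub_neg_eq_add, norm_neg, hkn, e2] at this
      exact this
    have e5 : 0 ≤ r + r⁻¹ - 1 := by
      have : 0 < r⁻¹ := by positivity
      linarith
    exact pow_le_pow_left₀ e5 e4 2
  · intro l
    have hl : l ∈ (Finset.univ : Finset (Fin 3)) := Finset.mem_univ l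
    rw [univ3 i j k hij hki hkj] at hl
    simp only [Finset.mem_insert, Finset.mem_singleton] at hl
    have h7 : r⁻¹ ≤ 1 := inv_le_one_of_one_le₀ hi.le
    rcases hl with rfl | rfl | rfl
    · exact le_rfl
    · rw [hjn]; linarith
    · rw [hkn]; exact hi.le

/-- the defect of a nontempered parameter -/
theorem defect_le {a : Fin 3 → ℂ} (hU : RS.Unitary a) (h : ¬ ∀ i, ‖a i‖ = 1) :
    ∑ i, (‖a i‖ - 1) ^ 2 ≤ ‖∑ i, a i‖ ^ 2 - 1 := by
  obtain ⟨r, hr1, hr2, hr3, -⟩ := local_shape hU h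
  have h0 : 0 < r := by linarith
  have h1 : r * r⁻¹ = 1 := mul_inv_cancel₀ h0.ne'
  rw [hr2]
  nlinarith

/-- a large parameter -/
theorem large_le {a : Fin 3 → ℂ} (hU : RS.Unitary a) {ε : ℝ} (hε : 0 < ε) (h : ∃ i, 1 + ε ≤ ‖a i‖) :
    (1 + ε ^ 2 / (1 + ε)) ^ 2 - 1 ≤ ‖∑ i, a i‖ ^ 2 - 1 := by
  obtain ⟨i, hi⟩ := h
  have hnt : ¬ ∀ i, ‖a i‖ = 1 := by
    intro hcon
    have := hcon i
    linarith
  obtain ⟨r, hr1, -, hr3, hr4⟩ := local_shape hU hnt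
  have h0 : 0 < r := by linarith
  have hr : 1 + ε ≤ r := hi.trans (hr4 i)
  have h2 : 1 + ε ^ 2 / (1 + ε) ≤ r + r⁻¹ - 1 := by
    have e1 : 1 + ε ^ 2 / (1 + ε) = (1 + ε) + (1 + ε)⁻¹ - 1 := by
      field_simp
      ring
    have e2 : (1 + ε) + (1 + ε)⁻¹ ≤ r + r⁻¹ := by
      have h3 : r + r⁻¹ - ((1 + ε) + (1 + ε)⁻¹) = (r - (1 + ε)) * (1 - (r * (1 + ε))⁻¹) := by
        field_simp
        ring
      have h4 : (r * (1 + ε))⁻¹ ≤ 1 := inv_le_one_of_one_le₀ (by nlinarith)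
      have h5 : 0 ≤ (r - (1 + ε)) * (1 - (r * (1 + ε))⁻¹) := mul_nonneg (by linarith) (by linarith)
      linarith
    linarith
  have h3 : 0 ≤ 1 + ε ^ 2 / (1 + ε) := by positivity
  have h4 := pow_le_pow_left₀ h3 h2 2
  linarith

variable {K : Type*} [Field K] [NumberField K] {S : Finset (HeightOneSpectrum (𝓞 K))}
variable {α : PL S → Fin 3 → ℂ}

theorem dd_zero (v : PL S) : dd α (v, 0) = ‖∑ i, α v i‖ ^ 2 - 1 := by
  unfold dd
  simp

theorem dd_ge (v : PL S) (k : ℕ) : -1 ≤ dd α (v, k) := by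
  unfold dd
  have h1 : (0 : ℝ) ≤ (k : ℝ) := Nat.cast_nonneg _
  have h3 : (0 : ℝ) < (((v, k) : PL S × ℕ).2 : ℝ) + 1 := by positivity
  rw [le_div_iff₀ h3]
  have h2 := sq_nonneg ‖∑ i, α ((v, k) : PL S × ℕ).1 i ^ (((v, k) : PL S × ℕ).2 + 1)‖
  simp only at h2 ⊢
  nlinarith

/-- the Rankin-Selberg bound, `1 < σ ≤ 2` -/
theorem rs_bound (h : CuspidalGL3 α) : ∃ C : ℝ, 0 ≤ C ∧ ∀ σ : ℝ, 1 < σ → σ ≤ 2 →
    (Summable fun v : PL S => (‖∑ i, α v i‖ ^ 2 - 1) * (qq v.1 : ℝ) ^ (-σ)) ∧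
    ∑' v : PL S, (‖∑ i, α v i‖ ^ 2 - 1) * (qq v.1 : ℝ) ^ (-σ) ≤ C := by
  obtain ⟨A, hA, hE⟩ := h.adjoint
  -- a bound for `A`
  have hK : IsCompact (Set.Icc (1 : ℝ) 2) := isCompact_Icc
  have hcont : ContinuousOn (fun σ : ℝ => ‖A (σ : ℂ)‖) (Set.Icc 1 2) := by
    intro σ hσ
    have h1 : ContinuousAt A (σ : ℂ) := (hA (σ : ℂ) (by
      show 1 / 2 ≤ ((σ : ℂ)).re
      rw [Complex.ofReal_re]
      linarith [hσ.1])).continuousAt
    exact ((h1.comp Complex.continuous_ofReal.continuousAt).norm).continuousWithinAt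
  obtain ⟨M, hM⟩ := hK.bddAbove_image hcont
  have hM' : ∀ σ : ℝ, 1 ≤ σ → σ ≤ 2 → ‖A (σ : ℂ)‖ ≤ max M 1 := fun σ h1 h2 =>
    (hM ⟨σ, ⟨h1, h2⟩, rfl⟩).trans (le_max_left _ _)
  have hs2 := summable_qq (S := S) (σ := 2) (by norm_num)
  refine ⟨Real.log (max M 1) + 2 * ∑' v : PL S, (qq v.1 : ℝ) ^ (-2 : ℝ), ?_, fun σ h1 h2 => ?_⟩
  · have := Real.log_nonneg (le_max_right M 1)
    have h3 : 0 ≤ ∑' v : PL S, (qq v.1 : ℝ) ^ (-2 : ℝ) := tsum_nonneg fun v => by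
      have := (qq_pos v.1).le
      positivity
    positivity
  · have hsum : Summable fun x : PL S × ℕ => dd α x * Real.exp (-(σ * LL x)) := by
      refine Summable.of_norm ?_
      refine (summable_abs h h1).congr fun x => ?_
      rw [norm_mul, Real.norm_eq_abs, Real.norm_of_nonneg (Real.exp_pos _).le]
    have hle : ∑' x : PL S × ℕ, dd α x * Real.exp (-(σ * LL x)) ≤ Real.log (max M 1) := by
      have e1 : A (σ : ℂ) = Complex.exp (logAd α (σ : ℂ)) := hE _ (by simpa using h1)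
      rw [logAd_eq, DS_real] at e1
      have e2 := hM' σ h1.le h2
      rw [e1] at e2
      rw [Real.le_log_iff_exp_le (lt_of_lt_of_le one_pos (le_max_right _ _))]
      refine le_trans (le_of_eq ?_) e2
      rw [Complex.norm_exp, Complex.ofReal_re]
    have hinj : Function.Injective fun v : PL S => ((v, 0) : PL S × ℕ) := fun v w hvw => (Prod.ext_iff.1 hvw).1
    have hs0 : Summable fun v : PL S => (‖∑ i, α v i‖ ^ 2 - 1) * (qq v.1 : ℝ) ^ (-σ) := by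
      refine (hsum.comp_injective hinj).congr fun v => ?_
      simp only [Function.comp_apply]
      rw [dd_zero, rexp_LL]
      simp
    refine ⟨hs0, ?_⟩
    rw [hsum.tsum_prod] at hle
    have hfib := hsum.prod_factor
    have hterm : ∀ v : PL S, (‖∑ i, α v i‖ ^ 2 - 1) * (qq v.1 : ℝ) ^ (-σ) - 2 * (qq v.1 : ℝ) ^ (-2 : ℝ) ≤
        ∑' k : ℕ, dd α (v, k) * Real.exp (-(σ * LL (v, k))) := by
      intro v
      rw [(hfib v).tsum_eq_zero_add, dd_zero, rexp_LL]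
      simp only [zero_add, pow_one]
      have hq := qq_pos v.1
      have hq2 : (2 : ℝ) ≤ qq v.1 := by exact_mod_cast two_le_qq v.1
      set q : ℝ := (qq v.1 : ℝ) with hqd
      have hq0 : 0 < q := hq
      have hqi : q⁻¹ ≤ 1 / 2 := by
        rw [inv_le_comm₀ hq0 (by norm_num)]
        norm_num
        exact hq2
      have hqi0 : 0 < q⁻¹ := inv_pos.2 hq0
      have hg := (hasSum_geometric_of_lt_one hqi0.le (by linarith : q⁻¹ < 1)).mul_left (q⁻¹ ^ 2)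
      have hlow : -(q⁻¹ ^ 2 * (1 - q⁻¹)⁻¹) ≤ ∑' k : ℕ, dd α (v, k + 1) * Real.exp (-(σ * LL (v, k + 1))) := by
        rw [← hg.tsum_eq, ← tsum_neg]
        refine Summable.tsum_le_tsum (fun k => ?_) hg.summable.neg ((summable_nat_add_iff 1).2 (hfib v))
        have e1 := dd_ge (α := α) v (k + 1)
        have e2 : Real.exp (-(σ * LL (v, k + 1))) ≤ q⁻¹ ^ 2 * q⁻¹ ^ k := by
          rw [rexp_LL, ← pow_add, show 2 + k = k + 1 + 1 by ring]
          refine pow_le_pow_left₀ (by positivity) ?_ _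
          rw [← Real.rpow_neg_one]
          exact Real.rpow_le_rpow_of_exponent_le (by linarith) (by linarith)
        have e3 : 0 < Real.exp (-(σ * LL (v, k + 1))) := Real.exp_pos _
        nlinarith
      have hinv : (1 - q⁻¹)⁻¹ ≤ 2 := by
        rw [inv_le_comm₀ (by linarith) (by norm_num)]
        linarith
      have hq22 : q ^ (-2 : ℝ) = q⁻¹ ^ 2 := by
        rw [Real.rpow_neg hq0.le, inv_pow]
        norm_num
      rw [hq22]
      have : q⁻¹ ^ 2 * (1 - q⁻¹)⁻¹ ≤ q⁻¹ ^ 2 * 2 := mul_le_mul_of_nonneg_left hinv (by positivity)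
      linarith
    have hs3 := hs0.sub (hs2.mul_left 2)
    have hfin := Summable.tsum_le_tsum hterm hs3 hsum.prod
    rw [hs0.tsum_sub (hs2.mul_left 2), tsum_mul_left] at hfin
    linarith

/-- comparison of a weight with `|a_v|² - 1` -/
theorem weight_bound (h : CuspidalGL3 α) {f g : PL S → ℝ} (hf0 : ∀ v, 0 ≤ f v) (hg0 : ∀ v, 0 ≤ g v)
    (hg1 : ∀ v, g v ≤ 1) (hfg : ∀ v, f v - g v ≤ ‖∑ i, α v i‖ ^ 2 - 1) : ∃ C : ℝ, ∀ σ : ℝ, 1 < σ →
    (Summable fun v : PL S => f v * (qq v.1 : ℝ) ^ (-σ)) ∧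
    ∑' v : PL S, f v * (qq v.1 : ℝ) ^ (-σ) ≤ ∑' v : PL S, g v * (qq v.1 : ℝ) ^ (-σ) + C := by
  obtain ⟨C, hC0, hC⟩ := rs_bound h
  have hgs : ∀ σ : ℝ, 1 < σ → Summable fun v : PL S => g v * (qq v.1 : ℝ) ^ (-σ) := fun σ hσ => by
    refine Summable.of_nonneg_of_le (fun v => ?_) (fun v => ?_) (summable_qq (S := S) hσ)
    · have := (qq_pos v.1).le
      have := hg0 v
      positivity
    · have := (qq_pos v.1).le
      exact mul_le_of_le_one_left (by positivity) (hg1 v)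
  have main : ∀ σ : ℝ, 1 < σ → σ ≤ 2 → (Summable fun v : PL S => f v * (qq v.1 : ℝ) ^ (-σ)) ∧
      ∑' v : PL S, f v * (qq v.1 : ℝ) ^ (-σ) ≤ ∑' v : PL S, g v * (qq v.1 : ℝ) ^ (-σ) + C := by
    intro σ h1 h2
    obtain ⟨a1, a2⟩ := hC σ h1 h2
    have hs := a1.add (hgs σ h1)
    have hle : ∀ v : PL S, f v * (qq v.1 : ℝ) ^ (-σ) ≤
        (‖∑ i, α v i‖ ^ 2 - 1) * (qq v.1 : ℝ) ^ (-σ) + g v * (qq v.1 : ℝ) ^ (-σ) := by
      intro v
      rw [← add_mul]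
      have := (qq_pos v.1).le
      exact mul_le_mul_of_nonneg_right (by linarith [hfg v]) (by positivity)
    have hfs : Summable fun v : PL S => f v * (qq v.1 : ℝ) ^ (-σ) := by
      refine Summable.of_nonneg_of_le (fun v => ?_) hle hs
      have := (qq_pos v.1).le
      have := hf0 v
      positivity
    refine ⟨hfs, ?_⟩
    have h3 := Summable.tsum_le_tsum hle hfs hs
    rw [a1.tsum_add (hgs σ h1)] at h3
    linarith
  obtain ⟨b1, b2⟩ := main 2 (by norm_num) le_rfl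
  refine ⟨C + ∑' v : PL S, g v * (qq v.1 : ℝ) ^ (-(2 : ℝ)), fun σ h1 => ?_⟩
  have hg2 : 0 ≤ ∑' v : PL S, g v * (qq v.1 : ℝ) ^ (-(2 : ℝ)) := tsum_nonneg fun v => by
    have := (qq_pos v.1).le
    have := hg0 v
    positivity
  rcases le_or_gt σ 2 with h2 | h2
  · obtain ⟨a1, a2⟩ := main σ h1 h2
    exact ⟨a1, by linarith⟩
  · have hle : ∀ v : PL S, f v * (qq v.1 : ℝ) ^ (-σ) ≤ f v * (qq v.1 : ℝ) ^ (-(2 : ℝ)) := fun v =>
      mul_le_mul_of_nonneg_left (Real.rpow_le_rpow_of_exponent_le (one_lt_qq v.1).le (by linarith)) (hf0 v)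
    have hfs : Summable fun v : PL S => f v * (qq v.1 : ℝ) ^ (-σ) := by
      refine Summable.of_nonneg_of_le (fun v => ?_) hle b1
      have := (qq_pos v.1).le
      have := hf0 v
      positivity
    refine ⟨hfs, ?_⟩
    have h3 := Summable.tsum_le_tsum hle hfs b1
    have h4 : 0 ≤ ∑' v : PL S, g v * (qq v.1 : ℝ) ^ (-σ) := tsum_nonneg fun v => by
      have := (qq_pos v.1).le
      have := hg0 v
      positivity
    linarith

end Pool.Agent.Y816.GL3T
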