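import Pool.Agent.Y816.GL3T.Bal
import Pool.Agent.Y816.GL3T.Loc

/-! Nontemperedness versus tempered places, at every scale. -/

set_option autoImplicit false

open Complex MeasureTheory Set Filter Topology NumberField IsDedekindDomain
open Pool.Agent.W189.TP (DS)
open Pool.Agent.TH861.GL3
open Pool.Agent.TH949.TX

namespace Pool.Agent.Y816.GL3T

variable {K : Type*} [Field K] [NumberField K] {S : Finset (HeightOneSpectrum (𝓞 K))}

theorem neg_count {α : PL S → Fin 3 → ℂ} (h : AdjointGL3 α) (Z : ℝ) :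
    SS (fun x => max 0 (-(dd α x))) LL Z ≤ ((⌊Z / Real.log 2⌋₊ : ℝ) + 1) *
      (({v : PL S | Real.log (qq v.1 : ℝ) ≤ Z ∧ ∀ i, ‖α v i‖ = 1}.ncard : ℕ) : ℝ) := by
  classical
  have hlog2 : 0 < Real.log 2 := Real.log_pos (by norm_num)
  have hfin : {v : PL S | Real.log (qq v.1 : ℝ) ≤ Z ∧ ∀ i, ‖α v i‖ = 1}.Finite :=
    (qq_fin Z).subset fun v hv => hv.1
  set A := hfin.toFinset with hA
  set R := Finset.range (⌊Z / Real.log 2⌋₊ + 1) with hR
  have hz : ∀ x : PL S × ℕ, x ∉ A ×ˢ R →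
      (if LL x ≤ Z then max 0 (-(dd α x)) else 0) = 0 := by
    intro x hx
    split_ifs with hLZ
    · have hq : Real.log 2 ≤ Real.log (qq x.1.1 : ℝ) :=
        Real.log_le_log (by norm_num) (by exact_mod_cast two_le_qq x.1.1)
      have hk : (0 : ℝ) ≤ x.2 := Nat.cast_nonneg _
      have hLZ' : ((x.2 : ℝ) + 1) * Real.log (qq x.1.1 : ℝ) ≤ Z := hLZ
      by_cases ht : ∀ i, ‖α x.1 i‖ = 1
      · exfalso
        apply hx
        rw [Finset.mem_product]
        refine ⟨hfin.mem_toFinset.2 ⟨?_, ht⟩, ?_⟩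
        · nlinarith
        · rw [hR, Finset.mem_range, Nat.lt_succ_iff]
          refine Nat.le_floor ?_
          rw [le_div_iff₀ hlog2]
          nlinarith
      · have h4 := nontemp_pow (h.unitary x.1) ht (x.2 + 1)
        refine max_eq_left ?_
        unfold dd
        rw [neg_nonpos]
        positivity
    · rfl
  unfold SS
  rw [tsum_eq_sum (s := A ×ˢ R) (fun x hx => by convert hz x hx)]
  have h1 : ∀ x ∈ A ×ˢ R, (if LL x ≤ Z then max 0 (-(dd α x)) else 0) ≤ (1 : ℝ) := by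
    intro x _
    split_ifs
    · have := dd_ge (α := α) x.1 x.2
      exact max_le zero_le_one (by linarith)
    · exact zero_le_one
  have h2 := Finset.sum_le_sum h1
  have h3 : ∑ x ∈ A ×ˢ R, (1 : ℝ) = ((⌊Z / Real.log 2⌋₊ : ℝ) + 1) * (A.card : ℝ) := by
    rw [Finset.sum_const, Finset.card_product, hR, Finset.card_range]
    simp
    ring
  rw [h3] at h2
  rw [ncard_eq_toFinset_card _ hfin]
  convert h2

open scoped Classical in
theorem scales {α : PL S → Fin 3 → ℂ} (h : AdjointGL3 α) {ε : ℝ} (hε : 0 < ε) :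
    ∀ᶠ X : ℝ in atTop, (∑' v : PL S, if (qq v.1 : ℝ) ≤ X then ∑ i, (‖α v i‖ - 1) ^ 2 else 0) ≤
      X ^ ε * (({v : PL S | (qq v.1 : ℝ) ≤ X ^ (1 + ε) ∧ ∀ i, ‖α v i‖ = 1}.ncard : ℕ) : ℝ) := by
  have := countable_primes K
  obtain ⟨F, hF, hE, hreal, hex⟩ := gl3_core h
  have hlog2 : 0 < Real.log 2 := Real.log_pos (by norm_num)
  have hcusp := h.auto.cuspidal
  have hsd : ∀ t : ℝ, 1 < t → Summable fun x : PL S × ℕ => |dd α x| * Real.exp (-(t * LL x)) :=
    fun t ht => summable_abs hcusp ht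
  have hb := balance (d := dd α) (L := LL) hlog2 Pool.Agent.TH949.RES.log_two_le hsd hF hE hreal hex
    (ε := ε / 2) (by positivity)
  have hp := poly_exp ((1 + ε / 2) / Real.log 2 + 1) 1 (c := ε / 2) (by positivity)
  filter_upwards [Real.tendsto_log_atTop.eventually hb, Real.tendsto_log_atTop.eventually hp,
    eventually_ge_atTop (Real.exp 1)] with X a1 a2 a3
  have hX0 : 0 < X := (Real.exp_pos 1).trans_le a3
  set Y := Real.log X with hY
  have hY1 : 1 ≤ Y := by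
    rw [hY, Real.le_log_iff_exp_le hX0]
    exact a3
  have hinj : Function.Injective fun v : PL S => ((v, 0) : PL S × ℕ) := fun v w hvw => (Prod.ext_iff.1 hvw).1
  have hLL0 : ∀ v : PL S, LL (v, 0) = Real.log (qq v.1 : ℝ) := fun v => by
    unfold LL
    simp
  have hg := summ_if (d := dd α) (L := LL) (w := fun x => max 0 (dd α x)) (fun x => le_max_left _ _)
    (fun x => max_le (abs_nonneg _) (le_abs_self _)) zero_le_two (hsd 2 (by norm_num)) Y
  have hpt : ∀ v : PL S, (if (qq v.1 : ℝ) ≤ X then ∑ i, (‖α v i‖ - 1) ^ 2 else 0) ≤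
      if LL (v, 0) ≤ Y then max 0 (dd α (v, 0)) else 0 := by
    intro v
    have hiff : (qq v.1 : ℝ) ≤ X ↔ LL (v, 0) ≤ Y := by
      rw [hLL0, hY, Real.log_le_log_iff (qq_pos v.1) hX0]
    by_cases hv : (qq v.1 : ℝ) ≤ X
    · rw [if_pos hv, if_pos (hiff.1 hv), dd_zero]
      by_cases ht : ∀ i, ‖α v i‖ = 1
      · have e : ∑ i, (‖α v i‖ - 1) ^ 2 = 0 := Finset.sum_eq_zero fun i _ => by rw [ht i]; norm_num
        rw [e]
        exact le_max_left _ _
      · exact (defect_le (h.unitary v) ht).trans (le_max_right _ _)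
    · rw [if_neg hv]
      split_ifs
      · exact le_max_left _ _
      · exact le_rfl
  have hf0 : ∀ v : PL S, 0 ≤ (if (qq v.1 : ℝ) ≤ X then ∑ i, (‖α v i‖ - 1) ^ 2 else 0) := fun v => by
    split_ifs
    · exact Finset.sum_nonneg fun i _ => sq_nonneg _
    · exact le_rfl
  have hgi : Summable fun v : PL S => if LL (v, 0) ≤ Y then max 0 (dd α (v, 0)) else 0 :=
    hg.comp_injective hinj
  have hfs := Summable.of_nonneg_of_le hf0 hpt hgi
  have b1 : (∑' v : PL S, if (qq v.1 : ℝ) ≤ X then ∑ i, (‖α v i‖ - 1) ^ 2 else 0) ≤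
      SS (fun x => max 0 (dd α x)) LL Y := by
    unfold SS
    refine Summable.tsum_le_tsum_of_inj (fun v : PL S => ((v, 0) : PL S × ℕ)) hinj (fun x _ => ?_) hpt hfs hg
    split_ifs
    · exact le_max_left _ _
    · exact le_rfl
  have b2 := neg_count h ((1 + ε / 2) * Y)
  have b3 : ((⌊(1 + ε / 2) * Y / Real.log 2⌋₊ : ℝ) + 1) ≤ Real.exp (ε / 2 * Y) := by
    refine le_trans ?_ a2
    have c1 : (⌊(1 + ε / 2) * Y / Real.log 2⌋₊ : ℝ) ≤ (1 + ε / 2) * Y / Real.log 2 := Nat.floor_le (by positivity)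
    have c2 : (1 + ε / 2) * Y / Real.log 2 = (1 + ε / 2) / Real.log 2 * Y := by ring
    have c3 : ((1 + ε / 2) / Real.log 2 + 1) * Y ^ 1 = (1 + ε / 2) / Real.log 2 * Y + Y := by ring
    rw [c3]
    linarith
  have b4 : (({v : PL S | Real.log (qq v.1 : ℝ) ≤ (1 + ε / 2) * Y ∧ ∀ i, ‖α v i‖ = 1}.ncard : ℕ) : ℝ) ≤
      (({v : PL S | (qq v.1 : ℝ) ≤ X ^ (1 + ε) ∧ ∀ i, ‖α v i‖ = 1}.ncard : ℕ) : ℝ) := by
    refine Nat.cast_le.2 (Set.ncard_le_ncard (fun v hv => ⟨?_, hv.2⟩) ?_)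
    · have c1 := hv.1
      rw [Real.rpow_def_of_pos hX0, ← Real.log_le_iff_le_exp (qq_pos v.1), ← hY]
      nlinarith
    · refine (qq_fin (Real.log (X ^ (1 + ε)))).subset fun v hv => ?_
      exact Real.log_le_log (qq_pos v.1) hv.1
  have hn0 : (0 : ℝ) ≤ (({v : PL S | Real.log (qq v.1 : ℝ) ≤ (1 + ε / 2) * Y ∧ ∀ i, ‖α v i‖ = 1}.ncard : ℕ) : ℝ) :=
    Nat.cast_nonneg _
  have hXe : X ^ ε = Real.exp (ε / 2 * Y) * Real.exp (ε / 2 * Y) := by
    rw [Real.rpow_def_of_pos hX0, ← Real.exp_add, ← hY]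
    congr 1
    ring
  calc _ ≤ SS (fun x => max 0 (dd α x)) LL Y := b1
    _ ≤ Real.exp (ε / 2 * Y) * SS (fun x => max 0 (-(dd α x))) LL ((1 + ε / 2) * Y) := a1
    _ ≤ Real.exp (ε / 2 * Y) * (Real.exp (ε / 2 * Y) *
        (({v : PL S | (qq v.1 : ℝ) ≤ X ^ (1 + ε) ∧ ∀ i, ‖α v i‖ = 1}.ncard : ℕ) : ℝ)) := by
        refine mul_le_mul_of_nonneg_left (b2.trans ?_) (Real.exp_pos _).le
        exact mul_le_mul b3 b4 hn0 (Real.exp_pos _).le
    _ = _ := by rw [hXe]; ring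

end Pool.Agent.Y816.GL3T
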