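import Pool.Agent.TH949.TX.GL3b

/-! Positive and negative coefficients of `log F` balance at every scale, up to `e^{ε Y}`. -/

set_option autoImplicit false

open Complex MeasureTheory Set Filter Topology
open Pool.Agent.W189.TP (DS)
open Pool.Agent.TH949.TX

namespace Pool.Agent.Y816.GL3T

variable {ι : Type*} {d L : ι → ℝ}

/-- the sum of `w i` over `L i ≤ Y` -/
noncomputable def SS (w L : ι → ℝ) (Y : ℝ) : ℝ := ∑' i, (open Classical in if L i ≤ Y then w i else 0)

theorem poly_exp (C : ℝ) (n : ℕ) {c : ℝ} (hc : 0 < c) :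
    ∀ᶠ Y : ℝ in atTop, C * Y ^ n ≤ Real.exp (c * Y) := by
  have h := (isLittleO_pow_exp_pos_mul_atTop n hc).def (c := 1 / (|C| + 1)) (by positivity)
  filter_upwards [h, eventually_ge_atTop 0] with Y hY h0
  rw [Real.norm_of_nonneg (by positivity), Real.norm_of_nonneg (Real.exp_pos _).le] at hY
  have h1 : C * Y ^ n ≤ (|C| + 1) * Y ^ n :=
    mul_le_mul_of_nonneg_right (by linarith [le_abs_self C]) (by positivity)
  have h2 : (|C| + 1) * Y ^ n ≤ (|C| + 1) * (1 / (|C| + 1) * Real.exp (c * Y)) :=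
    mul_le_mul_of_nonneg_left hY (by positivity)
  have h3 : (|C| + 1) * (1 / (|C| + 1) * Real.exp (c * Y)) = Real.exp (c * Y) := by
    field_simp
  linarith

theorem summ_if {w : ι → ℝ} (hw0 : ∀ i, 0 ≤ w i) (hw : ∀ i, w i ≤ |d i|) {t : ℝ} (ht : 0 ≤ t)
    (h2 : Summable fun i => |d i| * Real.exp (-(t * L i))) (Y : ℝ) :
    Summable fun i => (open Classical in if L i ≤ Y then w i else 0) := by
  classical
  refine Summable.of_nonneg_of_le (fun i => ?_) (fun i => ?_) (h2.mul_left (Real.exp (t * Y)))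
  · split_ifs
    · exact hw0 i
    · exact le_rfl
  · split_ifs with h
    · have h3 : 1 ≤ Real.exp (t * Y) * Real.exp (-(t * L i)) := by
        rw [← Real.exp_add]
        refine Real.one_le_exp ?_
        nlinarith
      have h4 := abs_nonneg (d i)
      calc w i ≤ |d i| * 1 := by rw [mul_one]; exact hw i
        _ ≤ |d i| * (Real.exp (t * Y) * Real.exp (-(t * L i))) := mul_le_mul_of_nonneg_left h3 h4
        _ = _ := by ring
    · positivity

theorem SS_nonneg {w : ι → ℝ} (hw0 : ∀ i, 0 ≤ w i) (Y : ℝ) : 0 ≤ SS w L Y := by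
  classical
  unfold SS
  refine tsum_nonneg fun i => ?_
  split_ifs
  · exact hw0 i
  · exact le_rfl

theorem SS_mono {w : ι → ℝ} (hw0 : ∀ i, 0 ≤ w i) (hw : ∀ i, w i ≤ |d i|) {t : ℝ} (ht : 0 ≤ t)
    (h2 : Summable fun i => |d i| * Real.exp (-(t * L i))) {Y Y' : ℝ} (hYY : Y ≤ Y') :
    SS w L Y ≤ SS w L Y' := by
  classical
  unfold SS
  refine Summable.tsum_le_tsum (fun i => ?_) (summ_if hw0 hw ht h2 Y) (summ_if hw0 hw ht h2 Y')
  split_ifs with h h'
  · exact le_rfl
  · exact absurd (h.trans hYY) h'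
  · exact hw0 i
  · exact le_rfl

theorem SS_le_exp {w : ι → ℝ} (hw0 : ∀ i, 0 ≤ w i) (hw : ∀ i, w i ≤ |d i|) {t : ℝ} (ht : 0 ≤ t)
    (h2 : Summable fun i => |d i| * Real.exp (-(t * L i))) (Y : ℝ) :
    SS w L Y ≤ (∑' i, |d i| * Real.exp (-(t * L i))) * Real.exp (t * Y) := by
  classical
  unfold SS
  rw [← tsum_mul_right]
  refine Summable.tsum_le_tsum (fun i => ?_) (summ_if hw0 hw ht h2 Y) (h2.mul_right _)
  split_ifs with h
  · have h3 : 1 ≤ Real.exp (t * Y) * Real.exp (-(t * L i)) := by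
      rw [← Real.exp_add]
      refine Real.one_le_exp ?_
      nlinarith
    have h4 := abs_nonneg (d i)
    calc w i ≤ |d i| * 1 := by rw [mul_one]; exact hw i
      _ ≤ |d i| * (Real.exp (t * Y) * Real.exp (-(t * L i))) := mul_le_mul_of_nonneg_left h3 h4
      _ = _ := by ring
  · positivity

/-- `WN` in terms of the sum of the negative parts -/
theorem WN_le (hL : ∀ i, 0 ≤ L i) {t : ℝ} (ht : 0 ≤ t)
    (h1 : Summable fun i => |d i| * Real.exp (-(t * L i)))
    (h2 : Summable fun i => |d i * L i| * Real.exp (-(2 * L i)))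
    {lam c Y : ℝ} (hlam0 : 0 ≤ lam) (hlam : lam ≤ 1) (hY : 0 < Y) (hc0 : 0 ≤ c) (hc : c ≤ 2) :
    WN d L lam c Y ≤ (2 * Y * Real.exp (-(c * (1 - lam) * Y))) * SS (fun i => max 0 (-(d i))) L ((1 + lam) * Y) := by
  classical
  unfold WN SS
  rw [← tsum_mul_left]
  have h3 := summ_if (L := L) (w := fun i => max 0 (-(d i))) (fun i => le_max_left _ _)
    (fun i => max_le (abs_nonneg _) (neg_le_abs _)) ht h1 ((1 + lam) * Y)
  refine Summable.tsum_le_tsum (fun i => ?_) (summ_WN hL h2 hlam hY hc) (h3.mul_left _)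
  split_ifs with h h'
  · have h4 := abs_le.1 h
    have h5 : L i ≤ 2 * Y := by nlinarith
    have h6 : Real.exp (-(c * L i)) ≤ Real.exp (-(c * (1 - lam) * Y)) := by
      refine Real.exp_le_exp.2 ?_
      have : (1 - lam) * Y ≤ L i := by nlinarith
      nlinarith
    have h7 : 0 ≤ max 0 (-(d i)) := le_max_left _ _
    calc max 0 (-(d i)) * L i * Real.exp (-(c * L i)) ≤
          max 0 (-(d i)) * (2 * Y) * Real.exp (-(c * (1 - lam) * Y)) := by
          refine mul_le_mul (mul_le_mul_of_nonneg_left h5 h7) h6 (Real.exp_pos _).le (by positivity)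
      _ = _ := by ring
  · exfalso
    apply h'
    have h4 := abs_le.1 h
    nlinarith
  · have h7 : 0 ≤ max 0 (-(d i)) := le_max_left _ _
    positivity
  · simp

/-- one window -/
theorem window {ℓ : ℝ} (hℓ : 0 < ℓ) (hLℓ : ∀ i, ℓ ≤ L i) {t : ℝ} (ht : 0 ≤ t)
    (h1 : Summable fun i => |d i| * Real.exp (-(t * L i)))
    (h2 : Summable fun i => |d i * L i| * Real.exp (-(2 * L i)))
    {lam1 η σ Y : ℝ} (hlam0 : 0 ≤ lam1) (hη : 0 < η) (hY : 0 < Y) (hσ0 : 0 ≤ σ) :
    SS (fun i => max 0 (d i)) L Y ≤ SS (fun i => max 0 (d i)) L ((1 - lam1) * Y) +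
      ℓ⁻¹ * Real.exp (σ * Y + lam1 ^ 2 * Y / (4 * η)) * Real.sqrt (4 * Real.pi * (η * Y)) *
        ∑' i, max 0 (d i) * L i * Real.exp (-(σ * L i)) * gk (η * Y) (L i - Y) := by
  classical
  have hL : ∀ i, 0 ≤ L i := fun i => hℓ.le.trans (hLℓ i)
  unfold SS
  rw [← tsum_mul_left]
  have h0 : ∀ i, max 0 (d i) ≤ |d i| := fun i => max_le (abs_nonneg _) (le_abs_self _)
  have s1 := summ_if (L := L) (w := fun i => max 0 (d i)) (fun i => le_max_left _ _) h0 ht h1 Y
  have s2 := summ_if (L := L) (w := fun i => max 0 (d i)) (fun i => le_max_left _ _) h0 ht h1 ((1 - lam1) * Y)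
  have hκ : 0 < η * Y := by positivity
  have s3 : Summable fun i => max 0 (d i) * L i * Real.exp (-(σ * L i)) * gk (η * Y) (L i - Y) := by
    refine Summable.of_nonneg_of_le (fun i => ?_) (fun i => ?_) (summ_g hL h2 hσ0 hκ Y)
    · have := hL i
      have h3 : 0 ≤ max 0 (d i) := le_max_left _ _
      exact mul_nonneg (by positivity) (gk_nonneg _ _)
    · refine mul_le_mul_of_nonneg_right (mul_le_mul_of_nonneg_right ?_ (Real.exp_pos _).le) (gk_nonneg _ _)
      rw [abs_mul, abs_of_nonneg (hL i)]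
      exact mul_le_mul_of_nonneg_right (h0 i) (hL i)
  rw [← s2.tsum_add (s3.mul_left _)]
  refine Summable.tsum_le_tsum (fun i => ?_) s1 (s2.add (s3.mul_left _))
  have h3 : 0 ≤ max 0 (d i) := le_max_left _ _
  have h4 : 0 ≤ ℓ⁻¹ * Real.exp (σ * Y + lam1 ^ 2 * Y / (4 * η)) * Real.sqrt (4 * Real.pi * (η * Y)) *
      (max 0 (d i) * L i * Real.exp (-(σ * L i)) * gk (η * Y) (L i - Y)) := by
    have := hL i
    have := gk_nonneg (η * Y) (L i - Y)
    positivity
  by_cases h5 : L i ≤ (1 - lam1) * Y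
  · have h6 : L i ≤ Y := by nlinarith
    rw [if_pos h5, if_pos h6]
    linarith
  · rw [if_neg h5, zero_add]
    by_cases h6 : L i ≤ Y
    · rw [if_pos h6]
      push Not at h5
      have hsq : 0 < Real.sqrt (4 * Real.pi * (η * Y)) := Real.sqrt_pos.2 (by positivity)
      have e1 : Real.exp (σ * Y + lam1 ^ 2 * Y / (4 * η)) * (Real.exp (-(σ * L i)) *
          Real.exp (-((L i - Y) ^ 2 / (4 * (η * Y))))) ≥ 1 := by
        rw [← Real.exp_add, ← Real.exp_add]
        refine Real.one_le_exp ?_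
        have h7 : (L i - Y) ^ 2 / (4 * (η * Y)) ≤ lam1 ^ 2 * Y / (4 * η) := by
          rw [div_le_div_iff₀ (by positivity) (by positivity)]
          have h8 : (L i - Y) ^ 2 ≤ (lam1 * Y) ^ 2 := by
            have h9 : 0 ≤ Y - L i := by linarith
            have h10 : Y - L i ≤ lam1 * Y := by nlinarith
            nlinarith
          have h11 : (L i - Y) ^ 2 * (4 * η) ≤ (lam1 * Y) ^ 2 * (4 * η) :=
            mul_le_mul_of_nonneg_right h8 (by positivity)
          nlinarith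
        nlinarith
      have e2 : ℓ⁻¹ * L i ≥ 1 := by
        rw [ge_iff_le, ← div_eq_inv_mul, one_le_div hℓ]
        exact hLℓ i
      have e3 : ℓ⁻¹ * Real.exp (σ * Y + lam1 ^ 2 * Y / (4 * η)) * Real.sqrt (4 * Real.pi * (η * Y)) *
          (max 0 (d i) * L i * Real.exp (-(σ * L i)) * gk (η * Y) (L i - Y)) =
          max 0 (d i) * ((ℓ⁻¹ * L i) * (Real.exp (σ * Y + lam1 ^ 2 * Y / (4 * η)) * (Real.exp (-(σ * L i)) *
          Real.exp (-((L i - Y) ^ 2 / (4 * (η * Y))))))) := by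
        unfold gk
        field_simp
      rw [e3]
      have e4 : (1 : ℝ) ≤ (ℓ⁻¹ * L i) * (Real.exp (σ * Y + lam1 ^ 2 * Y / (4 * η)) * (Real.exp (-(σ * L i)) *
          Real.exp (-((L i - Y) ^ 2 / (4 * (η * Y)))))) := by
        have := mul_le_mul e2 e1 zero_le_one (by linarith)
        linarith
      calc max 0 (d i) = max 0 (d i) * 1 := by ring
        _ ≤ _ := mul_le_mul_of_nonneg_left e4 h3
    · rw [if_neg h6]
      exact h4

/-- the positive part of the explicit formula -/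
theorem pos_eq (hL : ∀ i, 0 ≤ L i) (h2 : Summable fun i => |d i * L i| * Real.exp (-(2 * L i)))
    {σ κ : ℝ} (hσ : 0 ≤ σ) (hκ : 0 < κ) (Y : ℝ) :
    ∑' i, max 0 (d i) * L i * Real.exp (-(σ * L i)) * gk κ (L i - Y) = (JJ d L (σ : ℂ) κ Y).re +
      ∑' i, max 0 (-(d i)) * L i * Real.exp (-(σ * L i)) * gk κ (L i - Y) := by
  rw [re_JJ hL h2 hσ hκ Y]
  have h4 := summ_g hL h2 hσ hκ Y
  have h5 : Summable fun i => d i * L i * Real.exp (-(σ * L i)) * gk κ (L i - Y) := by
    refine Summable.of_norm_bounded h4 fun i => ?_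
    rw [norm_mul, norm_mul, Real.norm_eq_abs, Real.norm_of_nonneg (Real.exp_pos _).le,
      Real.norm_of_nonneg (gk_nonneg _ _)]
  have h6 : Summable fun i => max 0 (-(d i)) * L i * Real.exp (-(σ * L i)) * gk κ (L i - Y) := by
    refine Summable.of_nonneg_of_le (fun i => ?_) (fun i => ?_) h4
    · have := hL i
      have h3 : 0 ≤ max 0 (-(d i)) := le_max_left _ _
      exact mul_nonneg (by positivity) (gk_nonneg _ _)
    · refine mul_le_mul_of_nonneg_right (mul_le_mul_of_nonneg_right ?_ (Real.exp_pos _).le) (gk_nonneg _ _)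
      rw [abs_mul, abs_of_nonneg (hL i)]
      exact mul_le_mul_of_nonneg_right (max_le (abs_nonneg _) (neg_le_abs _)) (hL i)
  rw [← h5.tsum_add h6]
  refine tsum_congr fun i => ?_
  rcases le_or_gt 0 (d i) with h | h
  · rw [max_eq_right h, max_eq_left (by linarith)]
    ring
  · rw [max_eq_left h.le, max_eq_right (by linarith)]
    ring

theorem SZ_zero {Z : Finset ℂ} {m : ℂ → ℤ} {η : ℝ} {s : ℂ} (h : ∀ ρ ∈ Z, (ex η s ρ).re < 0) :
    Tendsto (fun Y : ℝ => SZ Z m η s Y) atTop (𝓝 0) := by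
  have h1 : ∀ ρ ∈ Z, Tendsto (fun Y : ℝ => (m ρ : ℂ) * cexp (Y * ex η s ρ)) atTop (𝓝 0) := by
    intro ρ hρ
    rw [tendsto_zero_iff_norm_tendsto_zero]
    simp_rw [norm_tm]
    simpa using (tend_neg (h ρ hρ)).const_mul |(m ρ : ℝ)|
  have h2 := tendsto_finsetSum Z h1
  rw [Finset.sum_const_zero] at h2
  exact h2

end Pool.Agent.Y816.GL3T
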