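import Pool.Agent.TH949.TX.MainReal
import Pool.Agent.Y816.GL3T.Abs

/-! Positive and negative coefficients of `log F` balance at every scale, up to `e^{ε Y}`: the main theorem. -/

set_option autoImplicit false

open Complex MeasureTheory Set Filter Topology
open Pool.Agent.W189.TP (DS)
open Pool.Agent.TH949.TX

namespace Pool.Agent.Y816.GL3T

variable {ι : Type*} {d L : ι → ℝ}

/-- the sum of the negative parts is large -/
theorem neg_large [Countable ι] (hL : ∀ i, 0 ≤ L i)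
    (habs : ∀ t : ℝ, 1 < t → Summable fun i => |d i| * Real.exp (-(t * L i)))
    {F : ℂ → ℂ} (hF : MeromorphicOn F univ) (hE : ∀ s : ℂ, 1 < s.re → F s = cexp (DS d L s))
    (hreal : ∀ x : ℝ, 1 / 2 ≤ x → 0 ≤ meromorphicOrderAt F (x : ℂ))
    (hex : ∀ δ : ℝ, 0 < δ → ∃ ρ : ℂ, 1 / 2 - δ < ρ.re ∧ ρ.im ≠ 0 ∧ meromorphicOrderAt F ρ ≠ 0)
    {a : ℝ} (ha0 : 0 ≤ a) (ha2 : a ≤ 2) (ha : ∃ ρ : ℂ, a < ρ.re ∧ meromorphicOrderAt F ρ ≠ 0)
    {lam : ℝ} (hlam : 0 < lam) (hlam1 : lam ≤ 1) :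
    ∀ᶠ Y : ℝ in atTop, Real.exp (a * (1 - lam) * Y) ≤ 32 * Y * SS (fun i => max 0 (-(d i))) L ((1 + lam) * Y) := by
  have h2 := summ_dL hL habs (t := 2) (by norm_num)
  have h1 := habs 2 (by norm_num)
  have hm := main_all hL habs hF hE hreal hex (c := a) (Or.inr ha) hlam hlam1
  filter_upwards [hm, eventually_gt_atTop 0] with Y hY hY0
  have h3 := WN_le hL zero_le_two h1 h2 hlam.le hlam1 hY0 ha0 ha2
  have h4 : Real.exp (a * (1 - lam) * Y) * Real.exp (-(a * (1 - lam) * Y)) = 1 := by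
    rw [← Real.exp_add, add_neg_cancel, Real.exp_zero]
  have h5 := hY.trans h3
  have h6 : 0 < Real.exp (a * (1 - lam) * Y) := Real.exp_pos _
  set N := SS (fun i => max 0 (-(d i))) L ((1 + lam) * Y)
  calc Real.exp (a * (1 - lam) * Y) = 16 * (Real.exp (a * (1 - lam) * Y) * (1 / 16)) := by ring
    _ ≤ 16 * (Real.exp (a * (1 - lam) * Y) * (2 * Y * Real.exp (-(a * (1 - lam) * Y)) * N)) := by
        refine mul_le_mul_of_nonneg_left (mul_le_mul_of_nonneg_left h5 h6.le) (by norm_num)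
    _ = 32 * Y * N * (Real.exp (a * (1 - lam) * Y) * Real.exp (-(a * (1 - lam) * Y))) := by ring
    _ = _ := by rw [h4, mul_one]

/-- one step -/
theorem step [Countable ι] {ℓ : ℝ} (hℓ : 0 < ℓ) (hLℓ : ∀ i, ℓ ≤ L i)
    (habs : ∀ t : ℝ, 1 < t → Summable fun i => |d i| * Real.exp (-(t * L i)))
    {F : ℂ → ℂ} (hF : MeromorphicOn F univ) (hE : ∀ s : ℂ, 1 < s.re → F s = cexp (DS d L s))
    {σ b : ℝ} (hb : ∀ ρ : ℂ, meromorphicOrderAt F ρ ≠ 0 → ρ.re ≤ b) (hb2 : 1 / 2 ≤ b) (hbσ : b < σ) (hσ1 : σ < 1)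
    {lam lam1 : ℝ} (hlam : 0 < lam) (hlam1 : lam ≤ 1) (hl1 : 0 ≤ lam1) :
    ∀ᶠ Y : ℝ in atTop, SS (fun i => max 0 (d i)) L Y ≤ SS (fun i => max 0 (d i)) L ((1 - lam1) * Y) +
      ℓ⁻¹ * Real.exp (σ * Y + lam1 ^ 2 * Y / (4 * (lam ^ 2 / 100))) *
        Real.sqrt (4 * Real.pi * (lam ^ 2 / 100 * Y)) * (2 + WN d L lam σ Y) := by
  classical
  have hL : ∀ i, 0 ≤ L i := fun i => hℓ.le.trans (hLℓ i)
  have h2 := summ_dL hL habs (t := 2) (by norm_num)
  have h1 := habs 2 (by norm_num)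
  set η : ℝ := lam ^ 2 / 100 with hη
  have hη0 : 0 < η := by rw [hη]; positivity
  have hη1 : η ≤ 1 / 4 := by
    rw [hη]
    nlinarith
  set V : ℝ := 2 + 2 / η with hV
  have hV0 : 0 < V := by rw [hV]; positivity
  have hV2 : 4 + 3 / η ≤ V ^ 2 := by
    rw [hV]
    have e1 : (2 + 2 / η) ^ 2 = 4 + 8 / η + (2 / η) ^ 2 := by ring
    rw [e1]
    have e2 : 3 / η ≤ 8 / η := by gcongr; norm_num
    have e3 : 0 ≤ (2 / η) ^ 2 := by positivity
    linarith
  have hσ0 : 0 ≤ σ := by linarith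
  obtain ⟨Z, m, h, hZ1, -, hZ3, hZ4⟩ := t_extract hL habs hF hE (c := 1 / 4) (H := V) (by norm_num) hV0
  have hZr : ∀ ρ ∈ Z, 1 / 4 ≤ ρ.re ∧ ρ.re ≤ 1 := fun ρ hρ => ⟨(hZ1 ρ hρ).1, (hZ1 ρ hρ).2.1⟩
  have hx := explicit hL habs (by norm_num : (0 : ℝ) < 1 / 4) hZr hZ3 hZ4 hη0 hη1 hV2 hV0 (s0 := (σ : ℂ))
    (by simp; linarith) (by simpa using hσ1) (by simp)
  have hz : Tendsto (fun Y : ℝ => SZ Z m η (σ : ℂ) Y) atTop (𝓝 0) := by
    refine SZ_zero fun ρ hρ => ?_
    obtain ⟨a1, a2, a3, a4, a5⟩ := hZ1 ρ hρ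
    have h3 : ρ.re ≤ b := hb ρ (by rw [a4]; exact_mod_cast a5)
    rw [ex_re]
    simp only [Complex.ofReal_re, Complex.ofReal_im, sub_zero]
    have h4 : ρ.re - σ < 0 := by linarith
    have h5 : -1 ≤ ρ.re - σ := by linarith
    have h6 : 0 ≤ η * ρ.im ^ 2 := by positivity
    set x := ρ.re - σ with hx
    have h7 : x ^ 2 ≤ -x := by nlinarith
    nlinarith
  have hJ := hx.sub hz
  simp only [add_sub_cancel_right, sub_zero] at hJ
  have hy := (tendsto_zero_iff_norm_tendsto_zero.1 hJ).eventually (gt_mem_nhds (show (0 : ℝ) < 1 by norm_num))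
  set B : ℝ := ∑' i, |d i * L i| * Real.exp (-(2 * L i)) with hB
  have hB0 : Tendsto (fun Y : ℝ => B * Real.exp (-Y)) atTop (𝓝 0) := by
    simpa using Real.tendsto_exp_neg_atTop_nhds_zero.const_mul B
  have hpi : 0 < 4 * Real.pi * η := by positivity
  filter_upwards [hy, hB0.eventually (gt_mem_nhds (show (0 : ℝ) < 1 by norm_num)),
    eventually_gt_atTop 0, eventually_ge_atTop (1 / (4 * Real.pi * η))] with Y a4 a5 a6 a7
  have hκ : 0 < η * Y := by positivity
  have n0 := window hℓ hLℓ zero_le_two h1 h2 hl1 hη0 a6 hσ0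
  have n1 := pos_eq hL h2 hσ0 hκ Y
  have n2 := neg_le_WN (c := σ) hL h2 hlam hlam1 hη hσ0 le_rfl (by linarith) a6 (by
    rw [div_le_iff₀ hpi] at a7
    linarith)
  rw [← hB] at n2
  have n3 : (JJ d L (σ : ℂ) (η * Y) Y).re ≤ 1 := (Complex.re_le_norm _).trans a4.le
  refine n0.trans (add_le_add le_rfl (mul_le_mul_of_nonneg_left ?_ (by positivity)))
  rw [n1]
  linarith

theorem iterate {P N : ℝ → ℝ} (hN : Monotone N) (hN0 : ∀ Y, 0 ≤ N Y) {c ε q : ℝ} (hc : 0 ≤ c) (hε : 0 ≤ ε)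
    (hq0 : 0 < q) (hq1 : q ≤ 1) (h : ∀ᶠ Y : ℝ in atTop, P Y ≤ P (q * Y) + Real.exp (c * Y) * N ((1 + ε) * Y))
    (j : ℕ) : ∀ᶠ Y : ℝ in atTop, P Y ≤ P (q ^ j * Y) + j * (Real.exp (c * Y) * N ((1 + ε) * Y)) := by
  induction j with
  | zero => exact Eventually.of_forall fun Y => by simp
  | succ j ih =>
    have hqj : 0 < q ^ j := by positivity
    have hqj1 : q ^ j ≤ 1 := pow_le_one₀ hq0.le hq1
    have h1 : Tendsto (fun Y : ℝ => q ^ j * Y) atTop atTop := tendsto_id.const_mul_atTop hqj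
    filter_upwards [ih, h1.eventually h, eventually_ge_atTop 0] with Y a1 a2 a3
    have e1 : q * (q ^ j * Y) = q ^ (j + 1) * Y := by ring
    rw [e1] at a2
    have h2 : q ^ j * Y ≤ Y := by nlinarith
    have h3 : Real.exp (c * (q ^ j * Y)) * N ((1 + ε) * (q ^ j * Y)) ≤ Real.exp (c * Y) * N ((1 + ε) * Y) := by
      refine mul_le_mul (Real.exp_le_exp.2 (mul_le_mul_of_nonneg_left h2 hc)) (hN ?_) (hN0 _) (Real.exp_pos _).le
      exact mul_le_mul_of_nonneg_left h2 (by linarith)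
    push_cast
    linarith

/-- **Balance at every scale.** -/
theorem balance [Countable ι] {ℓ : ℝ} (hℓ : 0 < ℓ) (hLℓ : ∀ i, ℓ ≤ L i)
    (habs : ∀ t : ℝ, 1 < t → Summable fun i => |d i| * Real.exp (-(t * L i)))
    {F : ℂ → ℂ} (hF : MeromorphicOn F univ) (hE : ∀ s : ℂ, 1 < s.re → F s = cexp (DS d L s))
    (hreal : ∀ x : ℝ, 1 / 2 ≤ x → 0 ≤ meromorphicOrderAt F (x : ℂ))
    (hex : ∀ δ : ℝ, 0 < δ → ∃ ρ : ℂ, 1 / 2 - δ < ρ.re ∧ ρ.im ≠ 0 ∧ meromorphicOrderAt F ρ ≠ 0)
    {ε : ℝ} (hε : 0 < ε) :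
    ∀ᶠ Y : ℝ in atTop, SS (fun i => max 0 (d i)) L Y ≤
      Real.exp (ε * Y) * SS (fun i => max 0 (-(d i))) L ((1 + ε) * Y) := by
  classical
  wlog hε1 : ε ≤ 1 generalizing ε with H
  · push Not at hε1
    have h1 := habs 2 (by norm_num)
    filter_upwards [H (ε := 1) one_pos le_rfl, eventually_ge_atTop 0] with Y hY hY0
    refine hY.trans (mul_le_mul (Real.exp_le_exp.2 (by nlinarith)) ?_ ?_ (Real.exp_pos _).le)
    · exact SS_mono (fun i => le_max_left _ _) (fun i => max_le (abs_nonneg _) (neg_le_abs _)) zero_le_two h1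
        (by nlinarith)
    · exact SS_nonneg (fun i => le_max_left _ _) _
  have hL : ∀ i, 0 ≤ L i := fun i => hℓ.le.trans (hLℓ i)
  have h2 := summ_dL hL habs (t := 2) (by norm_num)
  have h1 := habs 2 (by norm_num)
  -- the abscissa
  set S : Set ℝ := {x | ∃ ρ : ℂ, ρ.re = x ∧ meromorphicOrderAt F ρ ≠ 0} with hS
  have hle1 : ∀ ρ : ℂ, meromorphicOrderAt F ρ ≠ 0 → ρ.re ≤ 1 := by
    intro ρ hρ
    obtain ⟨Z, m, h, hZ1, hZ2, -, -⟩ := t_extract hL habs hF hE (c := min ρ.re 0) (H := |ρ.im| + 1)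
      (lt_of_le_of_lt (min_le_right _ _) (by norm_num)) (by positivity)
    exact (hZ1 ρ (hZ2 ρ (min_le_left _ _) (by linarith) hρ)).2.1
  have hSb : BddAbove S := by
    refine ⟨1, ?_⟩
    rintro x ⟨ρ, rfl, h⟩
    exact hle1 ρ h
  have hSn : S.Nonempty := by
    obtain ⟨ρ, -, -, h4⟩ := hex 1 one_pos
    exact ⟨ρ.re, ρ, rfl, h4⟩
  set b : ℝ := sSup S with hb
  have hb1 : b ≤ 1 := csSup_le hSn (by rintro x ⟨ρ, rfl, h⟩; exact hle1 ρ h)
  have hb2 : 1 / 2 ≤ b := by
    by_contra hcon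
    push Not at hcon
    obtain ⟨ρ, h3, h4, h5⟩ := hex (1 / 2 - b) (by linarith)
    have : ρ.re ≤ b := le_csSup hSb ⟨ρ, rfl, h5⟩
    linarith
  have hbρ : ∀ ρ : ℂ, meromorphicOrderAt F ρ ≠ 0 → ρ.re ≤ b := fun ρ hρ => le_csSup hSb ⟨ρ, rfl, hρ⟩
  have hlow : ∀ a : ℝ, a < b → ∃ ρ : ℂ, a < ρ.re ∧ meromorphicOrderAt F ρ ≠ 0 := by
    intro a ha
    obtain ⟨x, ⟨ρ, rfl, h4⟩, h5⟩ := exists_lt_of_lt_csSup hSn (hb ▸ ha)
    exact ⟨ρ, h5, h4⟩
  -- the functions
  set P : ℝ → ℝ := fun Y => SS (fun i => max 0 (d i)) L Y with hP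
  set N : ℝ → ℝ := fun Y => SS (fun i => max 0 (-(d i))) L Y with hN
  have hN0 : ∀ Y, 0 ≤ N Y := fun Y => SS_nonneg (fun i => le_max_left _ _) Y
  have hNm : Monotone N := fun Y Y' hYY => SS_mono (fun i => le_max_left _ _)
    (fun i => max_le (abs_nonneg _) (neg_le_abs _)) zero_le_two h1 hYY
  have hPexp : ∀ t : ℝ, 1 < t → ∀ Y, P Y ≤ (∑' i, |d i| * Real.exp (-(t * L i))) * Real.exp (t * Y) :=
    fun t ht Y => SS_le_exp (fun i => le_max_left _ _) (fun i => max_le (abs_nonneg _) (le_abs_self _))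
      (by linarith) (habs t ht) Y
  set lam : ℝ := ε / 8 with hlam
  have hlam0 : 0 < lam := by rw [hlam]; positivity
  have hlam1 : lam ≤ 1 := by rw [hlam]; linarith
  have hNl : ∀ Y : ℝ, 0 ≤ Y → N ((1 + lam) * Y) ≤ N ((1 + ε) * Y) := fun Y hY => hNm (by
    rw [hlam]
    nlinarith)
  show ∀ᶠ Y : ℝ in atTop, P Y ≤ Real.exp (ε * Y) * N ((1 + ε) * Y)
  by_cases hb3 : b < 1
  · -- the main case
    set e : ℝ := min (ε / 8) ((1 - b) / 2) with he
    have he0 : 0 < e := lt_min (by positivity) (by linarith)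
    have he1 : e ≤ ε / 8 := min_le_left _ _
    have he2 : e ≤ (1 - b) / 2 := min_le_right _ _
    set σ : ℝ := b + e with hσ
    have hσ1 : σ < 1 := by rw [hσ]; linarith
    set lam1 : ℝ := lam * ε / 40 with hl1
    have hl10 : 0 < lam1 := by rw [hl1]; positivity
    have hl11 : lam1 ≤ 1 / 2 := by
      rw [hl1]
      nlinarith
    have hst := step hℓ hLℓ habs hF hE hbρ hb2 (show b < σ by rw [hσ]; linarith) hσ1 hlam0 hlam1 hl10.le
    have hng := neg_large hL habs hF hE hreal hex (a := b - e) (by linarith) (by linarith)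
      (hlow (b - e) (by linarith)) hlam0 hlam1
    have e64 : ∀ Y : ℝ, lam1 ^ 2 * Y / (4 * (lam ^ 2 / 100)) = ε ^ 2 / 64 * Y := by
      intro Y
      rw [hl1]
      field_simp
      ring
    set C : ℝ := ℓ⁻¹ * (4 * Real.pi * (lam ^ 2 / 100) + 1) * 100 with hC
    have hC0 : 0 ≤ C := by rw [hC]; positivity
    have hpoly := poly_exp C 2 (c := ε / 4) (by positivity)
    have hone : ∀ᶠ Y : ℝ in atTop, P Y ≤ P ((1 - lam1) * Y) + Real.exp (3 * ε / 4 * Y) * N ((1 + ε) * Y) := by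
      filter_upwards [hst, hng, hpoly, eventually_ge_atTop 1] with Y a1 a2 a3 a4
      have hY0 : 0 < Y := by linarith
      rw [e64] at a1
      have w1 := WN_le hL zero_le_two h1 h2 hlam0.le hlam1 hY0 (c := σ) (by linarith) (by linarith)
      have w2 := hNl Y hY0.le
      have w3 := hN0 ((1 + lam) * Y)
      change SS (fun i => max 0 (-(d i))) L ((1 + lam) * Y) ≤ _ at w2
      change 0 ≤ SS (fun i => max 0 (-(d i))) L ((1 + lam) * Y) at w3
      set N1 := SS (fun i => max 0 (-(d i))) L ((1 + lam) * Y) with hN1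
      have s1 : Real.sqrt (4 * Real.pi * (lam ^ 2 / 100 * Y)) ≤ (4 * Real.pi * (lam ^ 2 / 100) + 1) * Y := by
        rw [Real.sqrt_le_left (by positivity)]
        have hpi := Real.pi_pos
        have x0 : 0 ≤ 4 * Real.pi * (lam ^ 2 / 100) := by positivity
        set x := 4 * Real.pi * (lam ^ 2 / 100)
        have e1 : 4 * Real.pi * (lam ^ 2 / 100 * Y) = x * Y := by ring
        rw [e1]
        have x2 : x * Y ≤ (x + 1) * Y * 1 := by nlinarith
        have x3 : 1 ≤ (x + 1) * Y := by nlinarith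
        calc x * Y ≤ (x + 1) * Y * 1 := x2
          _ ≤ (x + 1) * Y * ((x + 1) * Y) := mul_le_mul_of_nonneg_left x3 (by positivity)
          _ = _ := by ring
      have s2 : 2 + WN d L lam σ Y ≤
          (64 * Y * Real.exp (-((b - e) * (1 - lam) * Y)) + 2 * Y * Real.exp (-(σ * (1 - lam) * Y))) * N1 := by
        have y1 : Real.exp ((b - e) * (1 - lam) * Y) * Real.exp (-((b - e) * (1 - lam) * Y)) = 1 := by
          rw [← Real.exp_add, add_neg_cancel, Real.exp_zero]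
        have y2 : 2 ≤ 64 * Y * Real.exp (-((b - e) * (1 - lam) * Y)) * N1 := by
          calc (2 : ℝ) = 2 * (Real.exp ((b - e) * (1 - lam) * Y) * Real.exp (-((b - e) * (1 - lam) * Y))) := by
                rw [y1]; norm_num
            _ ≤ 2 * ((32 * Y * N1) * Real.exp (-((b - e) * (1 - lam) * Y))) :=
                mul_le_mul_of_nonneg_left (mul_le_mul_of_nonneg_right a2 (Real.exp_pos _).le) (by norm_num)
            _ = _ := by ring
        rw [add_mul]
        linarith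
      have s3 : Real.exp (σ * Y + ε ^ 2 / 64 * Y) *
          (64 * Y * Real.exp (-((b - e) * (1 - lam) * Y)) + 2 * Y * Real.exp (-(σ * (1 - lam) * Y))) ≤
          100 * Y * Real.exp (ε / 2 * Y) := by
        rw [mul_add]
        have y1 : Real.exp (σ * Y + ε ^ 2 / 64 * Y) * (64 * Y * Real.exp (-((b - e) * (1 - lam) * Y))) ≤
            64 * Y * Real.exp (ε / 2 * Y) := by
          have y2 : Real.exp (σ * Y + ε ^ 2 / 64 * Y) * Real.exp (-((b - e) * (1 - lam) * Y)) ≤
              Real.exp (ε / 2 * Y) := by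
            rw [← Real.exp_add]
            refine Real.exp_le_exp.2 ?_
            have y3 : σ + ε ^ 2 / 64 - (b - e) * (1 - lam) ≤ ε / 2 := by
              rw [hσ]
              have y4 : ε ^ 2 ≤ ε := by nlinarith
              have y5 : (b - e) * lam ≤ 1 * lam := mul_le_mul_of_nonneg_right (by linarith) hlam0.le
              rw [hlam] at y5 ⊢
              nlinarith
            nlinarith
          calc _ = 64 * Y * (Real.exp (σ * Y + ε ^ 2 / 64 * Y) * Real.exp (-((b - e) * (1 - lam) * Y))) := by ring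
            _ ≤ _ := mul_le_mul_of_nonneg_left y2 (by positivity)
        have z1 : Real.exp (σ * Y + ε ^ 2 / 64 * Y) * (2 * Y * Real.exp (-(σ * (1 - lam) * Y))) ≤
            2 * Y * Real.exp (ε / 2 * Y) := by
          have y2 : Real.exp (σ * Y + ε ^ 2 / 64 * Y) * Real.exp (-(σ * (1 - lam) * Y)) ≤
              Real.exp (ε / 2 * Y) := by
            rw [← Real.exp_add]
            refine Real.exp_le_exp.2 ?_
            have y3 : σ + ε ^ 2 / 64 - σ * (1 - lam) ≤ ε / 2 := by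
              have y4 : ε ^ 2 ≤ ε := by nlinarith
              have y5 : σ * lam ≤ 1 * lam := mul_le_mul_of_nonneg_right hσ1.le hlam0.le
              rw [hlam] at y5 ⊢
              nlinarith
            nlinarith
          calc _ = 2 * Y * (Real.exp (σ * Y + ε ^ 2 / 64 * Y) * Real.exp (-(σ * (1 - lam) * Y))) := by ring
            _ ≤ _ := mul_le_mul_of_nonneg_left y2 (by positivity)
        have : 0 ≤ Y * Real.exp (ε / 2 * Y) := by positivity
        nlinarith
      have s4 : ℓ⁻¹ * Real.exp (σ * Y + ε ^ 2 / 64 * Y) * Real.sqrt (4 * Real.pi * (lam ^ 2 / 100 * Y)) *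
          (2 + WN d L lam σ Y) ≤ Real.exp (3 * ε / 4 * Y) * N1 := by
        have hE1 : 0 < Real.exp (σ * Y + ε ^ 2 / 64 * Y) := Real.exp_pos _
        calc _ ≤ ℓ⁻¹ * Real.exp (σ * Y + ε ^ 2 / 64 * Y) * ((4 * Real.pi * (lam ^ 2 / 100) + 1) * Y) *
              ((64 * Y * Real.exp (-((b - e) * (1 - lam) * Y)) + 2 * Y * Real.exp (-(σ * (1 - lam) * Y))) * N1) := by
              refine mul_le_mul (mul_le_mul_of_nonneg_left s1 (by positivity)) s2 ?_ (by positivity)
              have : 0 ≤ WN d L lam σ Y := by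
                unfold WN
                refine tsum_nonneg fun i => ?_
                split_ifs
                · have := hL i
                  positivity
                · exact le_rfl
              linarith
          _ = (ℓ⁻¹ * (4 * Real.pi * (lam ^ 2 / 100) + 1)) * Y * (Real.exp (σ * Y + ε ^ 2 / 64 * Y) *
              (64 * Y * Real.exp (-((b - e) * (1 - lam) * Y)) + 2 * Y * Real.exp (-(σ * (1 - lam) * Y)))) * N1 := by
              ring
          _ ≤ (ℓ⁻¹ * (4 * Real.pi * (lam ^ 2 / 100) + 1)) * Y * (100 * Y * Real.exp (ε / 2 * Y)) * N1 := by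
              refine mul_le_mul_of_nonneg_right (mul_le_mul_of_nonneg_left s3 (by positivity)) w3
          _ = C * Y ^ 2 * Real.exp (ε / 2 * Y) * N1 := by rw [hC]; ring
          _ ≤ Real.exp (ε / 4 * Y) * Real.exp (ε / 2 * Y) * N1 := by
              refine mul_le_mul_of_nonneg_right (mul_le_mul_of_nonneg_right a3 (Real.exp_pos _).le) w3
          _ = _ := by
              rw [← Real.exp_add]
              congr 2
              ring
      refine a1.trans (add_le_add le_rfl (s4.trans ?_))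
      exact mul_le_mul_of_nonneg_left w2 (Real.exp_pos _).le
    -- iterate
    obtain ⟨J, hJ⟩ := exists_pow_lt_of_lt_one (show (0 : ℝ) < 1 / 16 by norm_num) (show 1 - lam1 < 1 by linarith)
    have hit := iterate hNm hN0 (c := 3 * ε / 4) (ε := ε) (q := 1 - lam1) (by positivity) hε.le (by linarith)
      (by linarith) hone J
    set B : ℝ := ∑' i, |d i| * Real.exp (-(2 * L i)) with hB
    have hB0 : 0 ≤ B := tsum_nonneg fun i => by positivity
    have hng4 := neg_large hL habs hF hE hreal hex (a := 1 / 4) (by norm_num) (by norm_num)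
      (hlow (1 / 4) (by linarith)) hlam0 hlam1
    filter_upwards [hit, hng4, poly_exp (32 * B) 1 (c := 1 / 16) (by norm_num),
      poly_exp (J + 1) 0 (c := ε / 4) (by positivity), eventually_gt_atTop 0] with Y a1 a2 a3 a4 a5
    rw [pow_zero, mul_one] at a4
    rw [pow_one] at a3
    have p1 : P ((1 - lam1) ^ J * Y) ≤ N ((1 + ε) * Y) := by
      have hJ0 : 0 ≤ (1 - lam1) ^ J := pow_nonneg (by linarith) J
      have q1 := hPexp 2 (by norm_num) ((1 - lam1) ^ J * Y)
      rw [← hB] at q1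
      have q2 : Real.exp (2 * ((1 - lam1) ^ J * Y)) ≤ Real.exp (1 / 8 * Y) := Real.exp_le_exp.2 (by nlinarith)
      have q3 : Real.exp (1 / 8 * Y) * Real.exp (1 / 16 * Y) ≤ Real.exp (1 / 4 * (1 - lam) * Y) := by
        rw [← Real.exp_add]
        refine Real.exp_le_exp.2 ?_
        rw [hlam]
        nlinarith
      have q4 : 32 * Y * P ((1 - lam1) ^ J * Y) ≤ 32 * Y * N ((1 + lam) * Y) := by
        calc 32 * Y * P ((1 - lam1) ^ J * Y) ≤ 32 * Y * (B * Real.exp (1 / 8 * Y)) :=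
              mul_le_mul_of_nonneg_left (q1.trans (mul_le_mul_of_nonneg_left q2 hB0)) (by positivity)
          _ = 32 * B * Y * Real.exp (1 / 8 * Y) := by ring
          _ ≤ Real.exp (1 / 16 * Y) * Real.exp (1 / 8 * Y) := mul_le_mul_of_nonneg_right a3 (Real.exp_pos _).le
          _ = Real.exp (1 / 8 * Y) * Real.exp (1 / 16 * Y) := by ring
          _ ≤ _ := q3.trans a2
      have q5 : P ((1 - lam1) ^ J * Y) ≤ N ((1 + lam) * Y) := le_of_mul_le_mul_left q4 (by positivity)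
      exact q5.trans (hNl Y a5.le)
    have p2 : 1 ≤ Real.exp (3 * ε / 4 * Y) := Real.one_le_exp (by positivity)
    have p3 := hN0 ((1 + ε) * Y)
    calc P Y ≤ P ((1 - lam1) ^ J * Y) + J * (Real.exp (3 * ε / 4 * Y) * N ((1 + ε) * Y)) := a1
      _ ≤ 1 * N ((1 + ε) * Y) + J * (Real.exp (3 * ε / 4 * Y) * N ((1 + ε) * Y)) := by linarith
      _ ≤ Real.exp (3 * ε / 4 * Y) * N ((1 + ε) * Y) + J * (Real.exp (3 * ε / 4 * Y) * N ((1 + ε) * Y)) :=
          add_le_add (mul_le_mul_of_nonneg_right p2 p3) le_rfl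
      _ = (J + 1) * (Real.exp (3 * ε / 4 * Y) * N ((1 + ε) * Y)) := by ring
      _ ≤ Real.exp (ε / 4 * Y) * (Real.exp (3 * ε / 4 * Y) * N ((1 + ε) * Y)) :=
          mul_le_mul_of_nonneg_right a4 (by positivity)
      _ = Real.exp (ε * Y) * N ((1 + ε) * Y) := by
          rw [← mul_assoc, ← Real.exp_add]
          congr 2
          ring
  · -- `b = 1`
    have hb4 : b = 1 := le_antisymm hb1 (not_lt.1 hb3)
    have hng := neg_large hL habs hF hE hreal hex (a := 1 - lam) (by linarith) (by linarith)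
      (hlow (1 - lam) (by linarith)) hlam0 hlam1
    set B : ℝ := ∑' i, |d i| * Real.exp (-((1 + lam) * L i)) with hB
    have hB0 : 0 ≤ B := tsum_nonneg fun i => by positivity
    filter_upwards [hng, poly_exp (32 * B) 1 (c := ε / 2) (by positivity), eventually_gt_atTop 0] with Y a1 a2 a3
    rw [pow_one] at a2
    have q1 := hPexp (1 + lam) (by linarith) Y
    rw [← hB] at q1
    have q4 : 32 * Y * P Y ≤ 32 * Y * (Real.exp (ε * Y) * N ((1 + lam) * Y)) := by
      calc 32 * Y * P Y ≤ 32 * Y * (B * Real.exp ((1 + lam) * Y)) := mul_le_mul_of_nonneg_left q1 (by positivity)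
        _ = 32 * B * Y * Real.exp ((1 + lam) * Y) := by ring
        _ ≤ Real.exp (ε / 2 * Y) * Real.exp ((1 + lam) * Y) := mul_le_mul_of_nonneg_right a2 (Real.exp_pos _).le
        _ ≤ Real.exp (ε * Y) * Real.exp ((1 - lam) * (1 - lam) * Y) := by
            rw [← Real.exp_add, ← Real.exp_add]
            refine Real.exp_le_exp.2 ?_
            have : ε / 2 + (1 + lam) ≤ ε + (1 - lam) * (1 - lam) := by
              rw [hlam]
              nlinarith
            nlinarith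
        _ ≤ Real.exp (ε * Y) * (32 * Y * N ((1 + lam) * Y)) := mul_le_mul_of_nonneg_left a1 (Real.exp_pos _).le
        _ = _ := by ring
    have q5 : P Y ≤ Real.exp (ε * Y) * N ((1 + lam) * Y) := le_of_mul_le_mul_left q4 (by positivity)
    exact q5.trans (mul_le_mul_of_nonneg_left (hNl Y a3.le) (Real.exp_pos _).le)

end Pool.Agent.Y816.GL3T
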